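import Mathlib
import Pool.Agent.H184R3.ES

/-!
# Weak reconstructibility of the functions determined by content and singletons
-/

set_option autoImplicit false

namespace Pool.Agent.Results.MP_75c0e8_co.WeakReconstruction

open Finset

open scoped Classical in
/-- The content of a tuple: the multiset of its entries. -/
noncomputable def content {A : Type} {n : ℕ} (a : Fin n → A) : Multiset A :=
  (univ : Finset (Fin n)).val.map a

open scoped Classical in
/-- The tuple (list) of the singletons of `a`, i.e. of the entries that occur exactly once, in the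
order of occurrence. -/
noncomputable def sing {A : Type} {n : ℕ} (a : Fin n → A) : List A :=
  ((List.finRange n).filter (fun i => ∀ j, a j = a i → j = i)).map a

/-- `f` is determined by content and singletons. -/
def DCS {A B : Type} {n : ℕ} (f : (Fin n → A) → B) : Prop :=
  ∀ a b, content a = content b → sing a = sing b → f a = f b

/-- `f` and `g` are similar: they differ by a permutation of the arguments. -/
def Similar {A B : Type} {n : ℕ} (f g : (Fin n → A) → B) : Prop :=
  ∃ τ : Equiv.Perm (Fin n), ∀ a, f a = g (a ∘ τ)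

/-- Similarity is an equivalence relation. -/
def simSetoid (A B : Type) (n : ℕ) : Setoid ((Fin n → A) → B) where
  r := Similar
  iseqv :=
    { refl := fun f => ⟨1, fun a => rfl⟩
      symm := by
        rintro f g ⟨τ, h⟩
        refine ⟨τ⁻¹, fun a => ?_⟩
        rw [h]
        congr 1
        funext i
        simp
      trans := by
        rintro f g k ⟨τ, h⟩ ⟨σ, h'⟩
        refine ⟨τ * σ, fun a => ?_⟩
        rw [h, h']
        rfl }

/-- The identification minor `f_I`, `I = {i, j}`, `i < j`, of a function of arity `n + 1`: the value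
at `a` is the value of `f` at the tuple obtained by inserting the entry `a i` at position `j`. -/
def minor {A B : Type} {n : ℕ} (f : (Fin (n + 1) → A) → B)
    (I : {I : Fin (n + 1) × Fin (n + 1) // I.1 < I.2}) : (Fin n → A) → B :=
  fun a => f (Fin.insertNth (α := fun _ => A) I.1.2
    (a ⟨I.1.1, lt_of_lt_of_le I.2 (Nat.lt_succ_iff.1 I.1.2.2)⟩) a)

/-- The deck of `f`: the multiset of the similarity classes of the identification minors. -/
def deck {A B : Type} {n : ℕ} (f : (Fin (n + 1) → A) → B) : Multiset (Quotient (simSetoid A B n)) :=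
  (univ : Finset {I : Fin (n + 1) × Fin (n + 1) // I.1 < I.2}).val.map
    (fun I => Quotient.mk (simSetoid A B n) (minor f I))

/-! ### Rearranging -/

lemma dcs_perm {A B : Type} {n : ℕ} (f : (Fin n → A) → B) (hf : DCS f) (a : Fin n → A)
    (ρ : Equiv.Perm (Fin n))
    (h : ∀ i j, (∀ l, a (ρ l) = a (ρ i) → l = i) → (∀ l, a (ρ l) = a (ρ j) → l = j) →
      i < j → ρ i < ρ j) : f (a ∘ ρ) = f a := by
  classical
  apply hf
  · unfold content
    rw [← Multiset.map_map]
    congr 1
    simp
  · unfold sing
    rw [← List.map_map]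
    congr 1
    have hperm : List.Perm (List.map ρ ((List.finRange n).filter
        (fun i => ∀ j, (a ∘ ρ) j = (a ∘ ρ) i → j = i)))
        ((List.finRange n).filter (fun i => ∀ j, a j = a i → j = i)) := by
      rw [List.perm_ext_iff_of_nodup]
      · intro x
        simp only [List.mem_map, List.mem_filter, List.mem_finRange, true_and, decide_eq_true_eq,
          Function.comp_apply]
        constructor
        · rintro ⟨i, hi, rfl⟩ j hj
          have := hi (ρ.symm j) (by rw [Equiv.apply_symm_apply]; exact hj)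
          rw [← this, Equiv.apply_symm_apply]
        · intro hx
          refine ⟨ρ.symm x, ?_, Equiv.apply_symm_apply _ _⟩
          intro j hj
          rw [Equiv.apply_symm_apply] at hj
          rw [← hx _ hj, Equiv.symm_apply_apply]
      · exact ((List.nodup_finRange n).filter _).map ρ.injective
      · exact (List.nodup_finRange n).filter _
    refine hperm.eq_of_pairwise (le := (· < ·)) ?_ ?_ ?_
    · intro x y _ _ h1 h2
      exact absurd h1 (lt_asymm h2)
    · rw [List.pairwise_map]
      have h1 : List.Pairwise (fun i j : Fin n => i < j) ((List.finRange n).filter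
        (fun i => ∀ j, (a ∘ ρ) j = (a ∘ ρ) i → j = i)) := (List.pairwise_lt_finRange n).filter _
      refine h1.imp_of_mem ?_
      intro i j hi hj hij
      simp only [List.mem_filter, List.mem_finRange, true_and, decide_eq_true_eq,
          Function.comp_apply] at hi hj
      exact h i j hi hj hij
    · exact (List.pairwise_lt_finRange n).filter _

lemma dcs_perm_anti {A B : Type} {n : ℕ} (f : (Fin n → A) → B) (hf : DCS f) (a : Fin n → A)
    (ρ : Equiv.Perm (Fin n))
    (h : ∀ i j, (∀ l, a (ρ l) = a (ρ i) → l = i) → (∀ l, a (ρ l) = a (ρ j) → l = j) →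
      i < j → ρ j < ρ i) : f (a ∘ ρ) = f (a ∘ (Fin.revPerm : Equiv.Perm (Fin n))) := by
  have h1 : a ∘ ρ = (a ∘ (Fin.revPerm : Equiv.Perm (Fin n))) ∘ (ρ.trans Fin.revPerm) := by
    funext i
    simp
  rw [h1]
  apply dcs_perm f hf
  intro i j hi hj hij
  simp only [Function.comp_apply, Equiv.trans_apply, Fin.revPerm_apply, Fin.rev_rev] at hi hj
  simp only [Equiv.trans_apply, Fin.revPerm_apply]
  rw [Fin.rev_lt_rev]
  exact h i j hi hj hij

lemma core {A B : Type} [Fintype A] {n : ℕ} (hn : (Fintype.card A) ^ 2 + 2 * Fintype.card A + 4 ≤ n)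
    (f g : (Fin n → A) → B) (hf : DCS f) (hg : DCS g) (θ : Equiv.Perm (Fin n))
    (E : Finset (Fin n)) (hE : E.card ≤ 3)
    (h : ∀ a, (∀ e ∈ E, ∀ e' ∈ E, a e = a e') → f a = g (a ∘ θ)) : Similar f g := by
  classical
  set k := Fintype.card A with hk
  -- a large monotone set
  have hV : ∃ V : Finset (Fin n), k ≤ V.card ∧ Disjoint E V ∧
      ((∀ x ∈ V, ∀ y ∈ V, x < y → θ.symm x < θ.symm y) ∨
        (∀ x ∈ V, ∀ y ∈ V, x < y → θ.symm y < θ.symm x)) := by
    have hcard : k * k < Fintype.card {x : Fin n // x ∉ E} := by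
      rw [Fintype.card_subtype_compl, Fintype.card_fin]
      have : Fintype.card {x : Fin n // x ∈ E} = E.card := by simp
      rw [this]
      have h2 : k ^ 2 = k * k := by ring
      omega
    have hinj : Function.Injective (fun x : {x : Fin n // x ∉ E} => θ.symm (x : Fin n)) := by
      intro x y hxy
      exact Subtype.ext (θ.symm.injective hxy)
    rcases Pool.Agent.H184R3.ES.erdos_szekeres hcard hinj with ⟨t, ht, hm⟩ | ⟨t, ht, hm⟩
    · refine ⟨t.map (Function.Embedding.subtype _), by rw [Finset.card_map]; omega, ?_, Or.inl ?_⟩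
      · rw [Finset.disjoint_right]
        intro x hx
        rw [Finset.mem_map] at hx
        obtain ⟨y, _, rfl⟩ := hx
        exact y.2
      · intro x hx y hy hxy
        rw [Finset.mem_map] at hx hy
        obtain ⟨x', hx', rfl⟩ := hx
        obtain ⟨y', hy', rfl⟩ := hy
        exact hm hx' hy' hxy
    · refine ⟨t.map (Function.Embedding.subtype _), by rw [Finset.card_map]; omega, ?_, Or.inr ?_⟩
      · rw [Finset.disjoint_right]
        intro x hx
        rw [Finset.mem_map] at hx
        obtain ⟨y, _, rfl⟩ := hx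
        exact y.2
      · intro x hx y hy hxy
        rw [Finset.mem_map] at hx hy
        obtain ⟨x', hx', rfl⟩ := hx
        obtain ⟨y', hy', rfl⟩ := hy
        exact hm hx' hy' hxy
  obtain ⟨V, hVk, hEV, hmono⟩ := hV
  -- the rearrangement of a tuple
  have hre : ∀ a : Fin n → A, ∃ ρ : Equiv.Perm (Fin n),
      (∀ e ∈ E, ∀ e' ∈ E, a (ρ e) = a (ρ e')) ∧
      (∀ i, (∀ l, a (ρ l) = a (ρ i) → l = i) → i ∈ V) ∧
      (∀ i j, (∀ l, a (ρ l) = a (ρ i) → l = i) → (∀ l, a (ρ l) = a (ρ j) → l = j) →
      i < j → ρ i < ρ j) := by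
    intro a
    obtain ⟨b, _, hb⟩ := Finset.exists_lt_card_fiber_of_mul_lt_card_of_maps_to
      (s := (univ : Finset (Fin n))) (t := (univ : Finset A)) (f := a) (n := 2)
      (fun _ _ => Finset.mem_univ _) (by
        rw [Finset.card_univ, Finset.card_univ, Fintype.card_fin]
        have h2 : k ^ 2 = k * k := by ring
        rw [← hk]
        omega)
    obtain ⟨C, hC, hCc⟩ := Finset.exists_subset_card_eq (s := {x ∈ (univ : Finset (Fin n)) | a x = b})
      (n := E.card) (by omega)
    set P : Finset (Fin n) := univ.filter (fun i => ∀ l, a l = a i → l = i) with hP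
    have hPk : P.card ≤ k := by
      rw [hk, ← Finset.card_univ]
      apply Finset.card_le_card_of_injOn a (fun _ _ => Finset.mem_coe.2 (Finset.mem_univ _))
      intro x hx y hy hxy
      rw [Finset.mem_coe, hP, Finset.mem_filter] at hx hy
      exact hy.2 x hxy
    obtain ⟨V0, hV0, hV0c⟩ := Finset.exists_subset_card_eq (s := V) (n := P.card) (by omega)
    have hCP : Disjoint C P := by
      rw [Finset.disjoint_left]
      intro x hx hxP
      rw [hP, Finset.mem_filter] at hxP
      have h1 := hC hx
      rw [Finset.mem_filter] at h1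
      have h2 : {x ∈ (univ : Finset (Fin n)) | a x = b} ⊆ {x} := by
        intro y hy
        rw [Finset.mem_filter] at hy
        rw [Finset.mem_singleton]
        exact hxP.2 y (by rw [hy.2, h1.2])
      have := Finset.card_le_card h2
      rw [Finset.card_singleton] at this
      omega
    let c0 : E ≃ C := Finset.equivOfCardEq hCc.symm
    let p0 : V0 ≃o P := (V0.orderIsoOfFin rfl).symm.trans (P.orderIsoOfFin hV0c.symm)
    let φ : Fin n → Fin n := fun x =>
      if hx : x ∈ E then (c0 ⟨x, hx⟩ : Fin n) else if hx : x ∈ V0 then (p0 ⟨x, hx⟩ : Fin n) else x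
    have hφE : ∀ x (hx : x ∈ E), φ x = (c0 ⟨x, hx⟩ : Fin n) := by
      intro x hx
      simp only [φ]
      rw [dif_pos hx]
    have hφV : ∀ x (hx : x ∈ V0), φ x = (p0 ⟨x, hx⟩ : Fin n) := by
      intro x hx
      simp only [φ]
      rw [dif_neg (fun hE' => Finset.disjoint_left.1 hEV hE' (hV0 hx)), dif_pos hx]
    have hinj : Set.InjOn φ (E ∪ V0 : Finset (Fin n)) := by
      intro x hx y hy hxy
      rw [Finset.mem_coe, Finset.mem_union] at hx hy
      rcases hx with hx | hx <;> rcases hy with hy | hy
      · rw [hφE x hx, hφE y hy] at hxy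
        have := c0.injective (Subtype.ext hxy)
        exact congrArg Subtype.val this
      · rw [hφE x hx, hφV y hy] at hxy
        exfalso
        apply Finset.disjoint_left.1 hCP (c0 ⟨x, hx⟩).2
        rw [hxy]
        exact (p0 ⟨y, hy⟩).2
      · rw [hφV x hx, hφE y hy] at hxy
        exfalso
        apply Finset.disjoint_left.1 hCP (c0 ⟨y, hy⟩).2
        rw [← hxy]
        exact (p0 ⟨x, hx⟩).2
      · rw [hφV x hx, hφV y hy] at hxy
        have := p0.injective (Subtype.ext hxy)
        exact congrArg Subtype.val this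
    obtain ⟨g0, hg0⟩ := Finset.exists_equiv_extend_of_card_eq (α := Fin n) (β := Fin n)
      (t := univ) (by simp) (s := E ∪ V0) (f := φ) (Finset.subset_univ _) hinj
    let ρ : Equiv.Perm (Fin n) := g0.trans (Equiv.subtypeUnivEquiv (fun x => Finset.mem_univ x))
    have hρ : ∀ x ∈ E ∪ V0, ρ x = φ x := by
      intro x hx
      exact hg0 x hx
    have hsing : ∀ i, (∀ l, a (ρ l) = a (ρ i) → l = i) → i ∈ V0 := by
      intro i hi
      have h1 : ρ i ∈ P := by
        rw [hP, Finset.mem_filter]
        refine ⟨Finset.mem_univ _, ?_⟩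
        intro l hl
        have := hi (ρ.symm l) (by rw [Equiv.apply_symm_apply]; exact hl)
        rw [← this, Equiv.apply_symm_apply]
      have h2 : ρ ((p0.symm ⟨ρ i, h1⟩ : V0) : Fin n) = ρ i := by
        rw [hρ _ (Finset.mem_union_right _ (p0.symm ⟨ρ i, h1⟩).2), hφV _ (p0.symm ⟨ρ i, h1⟩).2]
        simp
      rw [← ρ.injective h2]
      exact (p0.symm ⟨ρ i, h1⟩).2
    refine ⟨ρ, ?_, fun i hi => hV0 (hsing i hi), ?_⟩
    · intro e he e' he'
      have key : ∀ e ∈ E, a (ρ e) = b := by
        intro e he
        rw [hρ e (Finset.mem_union_left _ he), hφE e he]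
        have := hC (c0 ⟨e, he⟩).2
        rw [Finset.mem_filter] at this
        exact this.2
      rw [key e he, key e' he']
    · intro i j hi hj hij
      have hi' := hsing i hi
      have hj' := hsing j hj
      rw [hρ i (Finset.mem_union_right _ hi'), hρ j (Finset.mem_union_right _ hj'),
        hφV i hi', hφV j hj']
      exact p0.strictMono (show (⟨i, hi'⟩ : V0) < ⟨j, hj'⟩ from hij)
  rcases hmono with hmono | hmono
  · refine ⟨1, fun a => ?_⟩
    obtain ⟨ρ, h1, h2, h3⟩ := hre a
    rw [← dcs_perm f hf a ρ h3, h (a ∘ ρ) h1]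
    have : (a ∘ ρ) ∘ θ = a ∘ (θ.trans ρ) := rfl
    rw [this, dcs_perm g hg a (θ.trans ρ) ?_]
    · rfl
    · intro i j hi hj hij
      simp only [Equiv.trans_apply] at hi hj ⊢
      have hi' : ∀ l, a (ρ l) = a (ρ (θ i)) → l = θ i := by
        intro l hl
        have := hi (θ.symm l) (by rw [Equiv.apply_symm_apply]; exact hl)
        rw [← this, Equiv.apply_symm_apply]
      have hj' : ∀ l, a (ρ l) = a (ρ (θ j)) → l = θ j := by
        intro l hl
        have := hj (θ.symm l) (by rw [Equiv.apply_symm_apply]; exact hl)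
        rw [← this, Equiv.apply_symm_apply]
      apply h3 _ _ hi' hj'
      rcases lt_trichotomy (θ i) (θ j) with h4 | h4 | h4
      · exact h4
      · exact absurd (θ.injective h4) hij.ne
      · have := hmono _ (h2 _ hj') _ (h2 _ hi') h4
        rw [Equiv.symm_apply_apply, Equiv.symm_apply_apply] at this
        exact absurd this (lt_asymm hij)
  · refine ⟨Fin.revPerm, fun a => ?_⟩
    obtain ⟨ρ, h1, h2, h3⟩ := hre a
    rw [← dcs_perm f hf a ρ h3, h (a ∘ ρ) h1]
    have : (a ∘ ρ) ∘ θ = a ∘ (θ.trans ρ) := rfl
    rw [this, dcs_perm_anti g hg a (θ.trans ρ) ?_]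
    intro i j hi hj hij
    simp only [Equiv.trans_apply] at hi hj ⊢
    have hi' : ∀ l, a (ρ l) = a (ρ (θ i)) → l = θ i := by
      intro l hl
      have := hi (θ.symm l) (by rw [Equiv.apply_symm_apply]; exact hl)
      rw [← this, Equiv.apply_symm_apply]
    have hj' : ∀ l, a (ρ l) = a (ρ (θ j)) → l = θ j := by
      intro l hl
      have := hj (θ.symm l) (by rw [Equiv.apply_symm_apply]; exact hl)
      rw [← this, Equiv.apply_symm_apply]
    apply h3 _ _ hj' hi'
    rcases lt_trichotomy (θ i) (θ j) with h4 | h4 | h4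
    · have := hmono _ (h2 _ hi') _ (h2 _ hj') h4
      rw [Equiv.symm_apply_apply, Equiv.symm_apply_apply] at this
      exact absurd this (lt_asymm hij)
    · exact absurd (θ.injective h4) hij.ne
    · exact h4

/-! ### The two directions -/

lemma finite_case {A B : Type} [Fintype A] {n : ℕ}
    (hn : (Fintype.card A) ^ 2 + 2 * Fintype.card A + 4 ≤ n)
    (f g : (Fin (n + 1) → A) → B) (hf : DCS f) (hg : DCS g) (h : deck f = deck g) :
    Similar f g := by
  classical
  let I0 : {I : Fin (n + 1) × Fin (n + 1) // I.1 < I.2} :=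
    ⟨(⟨0, by omega⟩, ⟨1, by omega⟩), by rw [Fin.lt_def]; norm_num⟩
  have hmem : Quotient.mk (simSetoid A B n) (minor f I0) ∈ deck f := by
    unfold deck
    exact Multiset.mem_map_of_mem _ (Finset.mem_univ I0)
  rw [h] at hmem
  unfold deck at hmem
  rw [Multiset.mem_map] at hmem
  obtain ⟨J, _, hJ⟩ := hmem
  have hsim : Similar (minor g J) (minor f I0) := Quotient.exact hJ
  obtain ⟨τ, hτ⟩ := (simSetoid A B n).iseqv.symm hsim
  -- positions
  set j := I0.1.2 with hj
  set j' := J.1.2 with hj'
  let θ : Equiv.Perm (Fin (n + 1)) :=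
    (finSuccEquiv' j').trans ((Equiv.optionCongr τ).trans (finSuccEquiv' j).symm)
  have hθ1 : θ j' = j := by
    simp [θ]
  have hθ2 : ∀ y, θ (j'.succAbove y) = j.succAbove (τ y) := by
    intro y
    simp [θ]
  let p : Fin n := ⟨I0.1.1, lt_of_lt_of_le I0.2 (Nat.lt_succ_iff.1 I0.1.2.2)⟩
  let p' : Fin n := ⟨J.1.1, lt_of_lt_of_le J.2 (Nat.lt_succ_iff.1 J.1.2.2)⟩
  have hp : j.succAbove p = I0.1.1 := by
    rw [Fin.succAbove_of_castSucc_lt]
    · rfl
    · exact I0.2
  let E : Finset (Fin (n + 1)) := {I0.1.1, j, j.succAbove (τ p')}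
  refine core (by omega) f g hf hg θ E (Finset.card_le_three) ?_
  intro a ha
  have h1 : a I0.1.1 = a j := ha _ (by simp [E]) _ (by simp [E])
  have h2 : a j = a (j.succAbove (τ p')) := ha _ (by simp [E]) _ (by simp [E])
  have h3 : f a = minor f I0 (fun y => a (j.succAbove y)) := by
    unfold minor
    congr 1
    have h4 : a (j.succAbove p) = a j := by rw [hp, h1]
    change a = Fin.insertNth (α := fun _ => A) j (a (j.succAbove p)) (fun y => a (j.succAbove y))
    rw [h4]
    exact (Fin.insertNth_self_removeNth (α := fun _ => A) j a).symm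
  rw [h3, hτ]
  unfold minor
  congr 1
  change Fin.insertNth (α := fun _ => A) j' (a (j.succAbove (τ p')))
    ((fun y => a (j.succAbove y)) ∘ τ) = a ∘ θ
  rw [← h2]
  funext m
  rcases Fin.eq_self_or_eq_succAbove j' m with hm | ⟨y, hm⟩
  · rw [hm, Fin.insertNth_apply_same, Function.comp_apply, hθ1]
  · rw [hm, Fin.insertNth_apply_succAbove, Function.comp_apply, Function.comp_apply, hθ2]

lemma content_injective {A : Type} {n : ℕ} (a : Fin n → A) :
    (content a).Nodup ↔ Function.Injective a := by
  unfold content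
  rw [Multiset.nodup_map_iff_inj_on (Finset.univ : Finset (Fin n)).nodup]
  constructor
  · intro h x y hxy
    exact h x (Finset.mem_univ_val x) y (Finset.mem_univ_val y) hxy
  · intro h x _ y _ hxy
    exact h hxy

open scoped Classical in
lemma infinite_case {A B : Type} [Infinite A] (b0 b1 : B) (hb : b0 ≠ b1) (n : ℕ) (_hn : 1 ≤ n) :
    ∃ f g : (Fin (n + 1) → A) → B, DCS f ∧ DCS g ∧ deck f = deck g ∧ ¬ Similar f g := by
  refine ⟨fun _ => b0, fun a => if Function.Injective a then b1 else b0, ?_, ?_, ?_, ?_⟩
  · intro a b _ _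
    rfl
  · intro a b h _
    have : Function.Injective a ↔ Function.Injective b := by
      rw [← content_injective, ← content_injective, h]
    simp only [this]
  · unfold deck
    congr 1
    funext I
    congr 1
    funext a
    unfold minor
    dsimp only
    rw [if_neg]
    intro h
    have hp : I.1.2.succAbove ⟨I.1.1, lt_of_lt_of_le I.2 (Nat.lt_succ_iff.1 I.1.2.2)⟩ = I.1.1 := by
      rw [Fin.succAbove_of_castSucc_lt]
      · rfl
      · exact I.2
    have h1 : Fin.insertNth (α := fun _ => A) I.1.2
        (a ⟨I.1.1, lt_of_lt_of_le I.2 (Nat.lt_succ_iff.1 I.1.2.2)⟩) a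
        (I.1.2.succAbove ⟨I.1.1, lt_of_lt_of_le I.2 (Nat.lt_succ_iff.1 I.1.2.2)⟩) =
        Fin.insertNth (α := fun _ => A) I.1.2
        (a ⟨I.1.1, lt_of_lt_of_le I.2 (Nat.lt_succ_iff.1 I.1.2.2)⟩) a I.1.2 := by
      rw [Fin.insertNth_apply_same, Fin.insertNth_apply_succAbove]
    have h2 := h h1
    rw [hp] at h2
    exact absurd h2 I.2.ne
  · rintro ⟨τ, h⟩
    let e : Fin (n + 1) → A := fun i => Infinite.natEmbedding A i
    have he : Function.Injective e := fun i j hij =>
      Fin.val_injective ((Infinite.natEmbedding A).injective hij)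
    have := h e
    dsimp only at this
    rw [if_pos (he.comp τ.injective)] at this
    exact hb this

/-- **Weak reconstructibility of the functions determined by content and singletons.**
For nonempty sets `A`, `B`, any two functions of arity `n + 1` from `A` to `B` which are determined
by content and singletons and have equal decks are similar for all sufficiently large `n` if and
only if `A` is finite or `B` has only one element. -/
theorem result (A B : Type) [Nonempty A] [Nonempty B] :
    (∃ N : ℕ, ∀ n, N ≤ n → ∀ f g : (Fin (n + 1) → A) → B, DCS f → DCS g → deck f = deck g →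
      Similar f g) ↔ (Finite A ∨ Subsingleton B) := by
  constructor
  · rintro ⟨N, h⟩
    by_contra hcon
    push Not at hcon
    obtain ⟨hA, hB⟩ := hcon
    obtain ⟨b0, b1, hb⟩ := hB
    obtain ⟨f, g, hf, hg, hd, hs⟩ := infinite_case (A := A) b0 b1 hb (N + 1) (by omega)
    exact hs (h (N + 1) (by omega) f g hf hg hd)
  · rintro (hA | hB)
    · have := Fintype.ofFinite A
      refine ⟨(Fintype.card A) ^ 2 + 2 * Fintype.card A + 4, fun n hn f g hf hg hd => ?_⟩
      exact finite_case hn f g hf hg hd
    · exact ⟨0, fun n _ f g _ _ _ => ⟨1, fun a => Subsingleton.elim _ _⟩⟩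

end Pool.Agent.Results.MP_75c0e8_co.WeakReconstruction
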